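import Pool.Agent.W325.S3.Stm
import Pool.Agent.H46R2.K3.DBL

/-!
Project S3: doubling of bridges.
-/

set_option autoImplicit false

namespace Pool.Agent.W924.S3

open Finset Pool.Agent.H46R2.K3 Pool.Agent.W325.S3 Pool.Agent.H46R2.K3.P

theorem blk2 : S_BLK2 := by
  classical
  intro k s R δ hδ h
  set B : Finset (List St) := brr k s R with hB
  have hBmem : ∀ w ∈ B, w.length = k ∧ Br w ∧ (s : ℤ) ≤ disp w 0 ∧
      ∀ i ≤ k, ∀ d, |pos w i d| ≤ (R : ℤ) := by
    intro w hw
    rw [hB] at hw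
    unfold brr at hw
    rw [Finset.mem_filter, dbl_mem_W] at hw
    exact ⟨hw.1, hw.2.1, hw.2.2.1, hw.2.2.2⟩
  set T : Finset V := Fintype.piFinset (fun _ : Fin 3 => Finset.Icc (-(k : ℤ)) k) with hT
  have hTc : (#T : ℝ) = (2 * (k : ℝ) + 1) ^ 3 := by
    rw [hT, Fintype.card_piFinset]
    simp only [Int.card_Icc, Finset.prod_const, Finset.card_univ, Fintype.card_fin]
    have : ((k : ℤ) + 1 - -(k : ℤ)).toNat = 2 * k + 1 := by omega
    rw [this]
    push_cast
    ring
  have hmaps : ∀ w ∈ B, disp w ∈ T := by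
    intro w hw
    rw [hT, Fintype.mem_piFinset]
    intro i
    rw [Finset.mem_Icc, ← abs_le]
    have h1 := dbl_abs_le w i
    rw [(hBmem w hw).1] at h1
    exact h1
  have hTne : T.Nonempty := by
    refine ⟨0, ?_⟩
    rw [hT, Fintype.mem_piFinset]
    intro i
    rw [Finset.mem_Icc]
    simp
  have hpos : (0 : ℝ) < (2 * (k : ℝ) + 1) ^ 3 := by positivity
  have hmu : 0 < mu ^ k := pow_pos dbl_mu_pos k
  obtain ⟨z, _, hz⟩ := Finset.exists_le_card_fiber_of_nsmul_le_card_of_maps_to
    (s := B) (t := T) (f := disp) (b := mu ^ k * δ / (2 * (k : ℝ) + 1) ^ 3) hmaps hTne (by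
      rw [nsmul_eq_mul, hTc, mul_div_cancel₀ _ hpos.ne']
      exact h)
  set S : Finset (List St) := B.filter (fun w => disp w = z) with hS
  have hSpos : 0 < #S := by
    have h1 : (0 : ℝ) < mu ^ k * δ / (2 * (k : ℝ) + 1) ^ 3 := by positivity
    have h2 : (0 : ℝ) < #S := lt_of_lt_of_le h1 hz
    exact_mod_cast h2
  have hSmem : ∀ w ∈ S, w.length = k ∧ Br w ∧ (s : ℤ) ≤ disp w 0 ∧ disp w = z ∧
      ∀ i ≤ k, ∀ d, |pos w i d| ≤ (R : ℤ) := by
    intro w hw
    rw [hS, Finset.mem_filter] at hw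
    obtain ⟨e1, e2, e3, e4⟩ := hBmem w hw.1
    exact ⟨e1, e2, e3, hw.2, e4⟩
  obtain ⟨w₀, hw₀⟩ := Finset.card_pos.1 hSpos
  obtain ⟨e1, e2, e3, e4, e5⟩ := hSmem w₀ hw₀
  have hz1 : (s : ℤ) ≤ z 0 := by rw [← e4]; exact e3
  have hz2 : ∀ d, |z d| ≤ (R : ℤ) := by
    intro d
    have h1 := e5 k le_rfl d
    rwa [← e1, dbl_pos_length, e4] at h1
  have hz3 : z 0 ≤ (R : ℤ) := (le_abs_self _).trans (hz2 0)
  have hinj : Set.InjOn (fun p : List St × List St => p.1 ++ p.2.map flip12)
      ((S ×ˢ S : Finset (List St × List St)) : Set (List St × List St)) := by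
    rintro ⟨u, v⟩ hp ⟨u', v'⟩ hq hpq
    rw [Finset.mem_coe, Finset.mem_product] at hp hq
    have h1 := (hSmem u hp.1).1
    have h2 := (hSmem u' hq.1).1
    have h3 := List.append_inj hpq (h1.trans h2.symm)
    have h4 : v = v' := (List.map_injective_iff.2 dbl_flip_inj) h3.2
    rw [Prod.mk.injEq]
    exact ⟨h3.1, h4⟩
  refine ⟨2 * (z 0).toNat, by omega, by omega,
    (S ×ˢ S).image (fun p : List St × List St => p.1 ++ p.2.map flip12), ?_, ?_⟩
  · intro w hw
    rw [Finset.mem_image] at hw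
    obtain ⟨⟨u, v⟩, hp, rfl⟩ := hw
    rw [Finset.mem_product] at hp
    obtain ⟨a1, a2, a3, a4, a5⟩ := hSmem u hp.1
    obtain ⟨b1, b2, b3, b4, b5⟩ := hSmem v hp.2
    simp only
    refine ⟨?_, dbl_br_append a2 (dbl_br_flip b2), ?_, ?_⟩
    · rw [List.length_append, List.length_map, a1, b1]
      ring
    · rw [dbl_disp_append]
      funext i
      rw [Pi.add_apply, dbl_disp_flip, a4, b4]
      unfold ax
      split_ifs with hi
      · rw [hi]
        omega
      · ring
    · intro i hi d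
      rw [List.length_append, List.length_map, a1, b1] at hi
      rcases le_or_gt i u.length with h1 | h1
      · rw [dbl_pos_left _ _ h1]
        have h2 := a5 i (by omega) d
        have h3 : (0 : ℤ) ≤ R := by positivity
        omega
      · obtain ⟨j', rfl⟩ := Nat.exists_eq_add_of_le h1.le
        rw [dbl_pos_right, Pi.add_apply, dbl_pos_flip, a4]
        have h2 := b5 j' (by omega) d
        have h3 := hz2 d
        have h4 : |if d = 0 then pos v j' d else - pos v j' d| ≤ (R : ℤ) := by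
          split_ifs
          · exact h2
          · rw [abs_neg]
            exact h2
        have h5 := abs_add_le (z d) (if d = 0 then pos v j' d else - pos v j' d)
        linarith
  · rw [Finset.card_image_of_injOn hinj, Finset.card_product]
    have h5 : mu ^ (2 * k) * (δ / (2 * (k : ℝ) + 1) ^ 3) ^ 2 =
        (mu ^ k * δ / (2 * (k : ℝ) + 1) ^ 3) * (mu ^ k * δ / (2 * (k : ℝ) + 1) ^ 3) := by
      ring
    rw [h5]
    push_cast
    exact mul_le_mul hz hz (by positivity) (by positivity)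

end Pool.Agent.W924.S3
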