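import Pool.Agent.W325.S3.Stm
import Pool.Agent.H46R2.K3.LE

/-!
Project S3: counting by coincidences.
-/

set_option autoImplicit false

namespace Pool.Agent.W924.S3

open Finset Pool.Agent.H46R2.K3 Pool.Agent.W325.S3 Pool.Agent.H46R2.K3.P

theorem count : S_COUNT := by
  classical
  intro n Lx k Y S hlen hS
  have hS' : ∀ w : List St, ∃ (L : ℕ) (U : Finset (List St)), w ∈ S → L ≤ Lx ∧
      (∀ u ∈ U, u.length = L ∧ BrL (w ++ u) ∧ K (w ++ u) ≤ k) ∧
      mu ^ L * Real.exp (-Y) ≤ (#U : ℝ) := by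
    intro w
    by_cases hw : w ∈ S
    · obtain ⟨L, hL, U, h1, h2⟩ := hS w hw
      exact ⟨L, U, fun _ => ⟨hL, h1, h2⟩⟩
    · exact ⟨0, ∅, fun h => absurd h hw⟩
  choose L U hLU using hS'
  have hmu0 : 0 < mu := zero_lt_one.trans_le one_le_mu
  set M : ℝ := mu ^ n * Real.exp Y * (37 * ((n : ℝ) + Lx + 1) ^ 4) ^ k with hM
  have hfib : ∀ l ∈ range (Lx + 1), ((#(S.filter fun w => L w = l) : ℕ) : ℝ) ≤ M := by
    intro l hl
    rw [Finset.mem_range] at hl
    set Sl := S.filter fun w => L w = l with hSl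
    have hmem : ∀ w ∈ Sl, w ∈ S ∧ L w = l := by
      intro w hw
      rw [hSl, Finset.mem_filter] at hw
      exact hw
    -- the union
    have hdisj : ∀ w ∈ Sl, ∀ w' ∈ Sl, w ≠ w' →
        Disjoint ((U w).image fun u => w ++ u) ((U w').image fun u => w' ++ u) := by
      intro w hw w' hw' hne
      rw [Finset.disjoint_left]
      intro x hx hx'
      rw [Finset.mem_image] at hx hx'
      obtain ⟨u, hu, rfl⟩ := hx
      obtain ⟨u', hu', he⟩ := hx'
      have h1 := hlen w (hmem w hw).1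
      have h2 := hlen w' (hmem w' hw').1
      exact hne (List.append_inj he (h2.trans h1.symm)).1.symm
    have hsub : Sl.biUnion (fun w => (U w).image fun u => w ++ u) ⊆
        (W (n + l)).filter fun w => BrL w ∧ K w ≤ k := by
      intro x hx
      rw [Finset.mem_biUnion] at hx
      obtain ⟨w, hw, hx⟩ := hx
      rw [Finset.mem_image] at hx
      obtain ⟨u, hu, rfl⟩ := hx
      obtain ⟨h1, h2⟩ := hmem w hw
      obtain ⟨h3, h4, h5⟩ := hLU w h1
      obtain ⟨h6, h7, h8⟩ := h4 u hu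
      rw [Finset.mem_filter, le_mem_W, List.length_append, hlen w h1, h6, h2]
      exact ⟨rfl, h7, h8⟩
    have hcard : ∑ w ∈ Sl, #(U w) ≤ G (n + l) k := by
      calc ∑ w ∈ Sl, #(U w) = ∑ w ∈ Sl, #((U w).image fun u => w ++ u) := by
            refine Finset.sum_congr rfl fun w _ => ?_
            rw [Finset.card_image_of_injective]
            intro u u' h
            exact List.append_cancel_left h
        _ = #(Sl.biUnion (fun w => (U w).image fun u => w ++ u)) :=
            (Finset.card_biUnion hdisj).symm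
        _ ≤ #((W (n + l)).filter fun w => BrL w ∧ K w ≤ k) := Finset.card_le_card hsub
        _ = G (n + l) k := by
            unfold G
            congr
    have h1 : (#Sl : ℝ) * (mu ^ l * Real.exp (-Y)) ≤ (G (n + l) k : ℝ) := by
      calc (#Sl : ℝ) * (mu ^ l * Real.exp (-Y)) = ∑ w ∈ Sl, mu ^ l * Real.exp (-Y) := by
            rw [Finset.sum_const, nsmul_eq_mul]
        _ ≤ ∑ w ∈ Sl, (#(U w) : ℝ) := by
            refine Finset.sum_le_sum fun w hw => ?_
            have h2 := (hLU w (hmem w hw).1).2.2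
            rwa [(hmem w hw).2] at h2
        _ ≤ (G (n + l) k : ℝ) := by exact_mod_cast hcard
    have h2 := G_le (n + l) k
    have h3 : (37 * (((n + l : ℕ) : ℝ) + 1) ^ 4) ^ k ≤ (37 * ((n : ℝ) + Lx + 1) ^ 4) ^ k := by
      have h4 : (l : ℝ) ≤ Lx := by exact_mod_cast (by omega : l ≤ Lx)
      push_cast
      gcongr
    have h4 : (#Sl : ℝ) * (mu ^ l * Real.exp (-Y)) ≤
        mu ^ (n + l) * (37 * ((n : ℝ) + Lx + 1) ^ 4) ^ k :=
      h1.trans (h2.trans (mul_le_mul_of_nonneg_left h3 (pow_nonneg hmu0.le _)))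
    have h5 : 0 < mu ^ l * Real.exp (-Y) := by positivity
    have h6 : mu ^ (n + l) * (37 * ((n : ℝ) + Lx + 1) ^ 4) ^ k =
        M * (mu ^ l * Real.exp (-Y)) := by
      rw [hM, pow_add, Real.exp_neg]
      field_simp
    rw [h6] at h4
    exact le_of_mul_le_mul_right h4 h5
  have hsum : #S = ∑ l ∈ range (Lx + 1), #(S.filter fun w => L w = l) := by
    refine Finset.card_eq_sum_card_fiberwise ?_
    intro w hw
    have := (hLU w hw).1
    rw [Finset.mem_coe, Finset.mem_range]
    omega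
  calc (#S : ℝ) = ∑ l ∈ range (Lx + 1), ((#(S.filter fun w => L w = l) : ℕ) : ℝ) := by
        exact_mod_cast hsum
    _ ≤ ∑ l ∈ range (Lx + 1), M := Finset.sum_le_sum hfib
    _ = mu ^ n * Real.exp Y * ((Lx : ℝ) + 1) * (37 * ((n : ℝ) + Lx + 1) ^ 4) ^ k := by
        rw [Finset.sum_const, Finset.card_range, nsmul_eq_mul, hM]
        push_cast
        ring

end Pool.Agent.W924.S3
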